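import Pool.Agent.H37.CNR.Stmts

/-!
# Row NBX of the board cnr
-/

set_option autoImplicit false

namespace Pool.CND

open Finset

section

variable {k L H : Type} [Field k] [Field L] [Algebra k L] [Group H] [Fintype H]

/-- the regular elements -/
def nbxV (t : L) : Submodule k L where
  carrier := {x | Reg k t x}
  zero_mem' := fun _ _ => Or.inl rfl
  add_mem' := by
    intro x y hx hy P hP
    by_cases h : x + y = 0
    · exact Or.inl h
    right
    rcases hx P hP with h1 | h1
    · rw [h1, zero_add]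
      rcases hy P hP with h2 | h2
      · exact absurd (by rw [h1, h2, add_zero]) h
      · exact h2
    · rcases hy P hP with h2 | h2
      · rw [h2, add_zero]; exact h1
      · by_cases hx0 : x = 0
        · rw [hx0, zero_add]; exact h2
        by_cases hy0 : y = 0
        · rw [hy0, add_zero]; exact h1
        exact (le_min h1 h2).trans (P.ord_add x y hx0 hy0 h)
  smul_mem' := by
    intro c x hx P hP
    by_cases hc : c = 0
    · left; rw [hc, zero_smul]
    by_cases hx0 : x = 0
    · left; rw [hx0, smul_zero]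
    right
    have hc' : algebraMap k L c ≠ 0 := by
      rw [Ne, map_eq_zero]; exact hc
    rw [Algebra.smul_def, P.ord_mul _ _ hc' hx0, P.ord_const c hc, zero_add]
    rcases hx P hP with h | h
    · exact absurd h hx0
    · exact h

theorem nbx_mem (t x : L) : x ∈ nbxV (k := k) t ↔ Reg k t x := Iff.rfl

theorem nbx_mul_t {t x : L} (hx : Reg k t x) : Reg k t (t * x) := by
  intro P hP
  by_cases ht : t = 0
  · left; rw [ht, zero_mul]
  by_cases hx0 : x = 0
  · left; rw [hx0, mul_zero]
  right
  rw [P.ord_mul t x ht hx0]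
  rcases hx P hP with h | h
  · exact absurd h hx0
  · exact add_nonneg hP h

/-- the bad elements for the coefficients `b` -/
def nbxW (ρ : H →* (L ≃ₐ[k] L)) (t : L) (b : H → ℕ) : Submodule k (nbxV (k := k) t) where
  carrier := {x | ∃ c : k, ∑ u : H, (b u : L) * ρ u (x : L) = algebraMap k L c}
  zero_mem' := ⟨0, by simp⟩
  add_mem' := by
    rintro x y ⟨c, hc⟩ ⟨d, hd⟩
    refine ⟨c + d, ?_⟩
    rw [map_add, ← hc, ← hd, ← Finset.sum_add_distrib]
    refine Finset.sum_congr rfl fun u _ => ?_
    rw [Submodule.coe_add, map_add, mul_add]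
  smul_mem' := by
    rintro r x ⟨c, hc⟩
    refine ⟨r * c, ?_⟩
    rw [map_mul, ← hc, Finset.mul_sum]
    refine Finset.sum_congr rfl fun u _ => ?_
    rw [Submodule.coe_smul, map_smul, Algebra.smul_def]
    ring

end

theorem nbx_thm (hFRC : S_FRC) : S_NBX := by
  intro p k L H _ _ _ _ _ _ ρ t hp hch hcov
  have hchL : CharP L p := charP_of_injective_algebraMap (algebraMap k L).injective p
  have hkinf : Infinite k := IsAlgClosed.instInfinite
  have htr : Transcendental k t := hcov.trans
  have hfixt : ∀ u : H, ρ u t = t := by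
    intro u
    exact ((hcov.fixed t).2 (IntermediateField.mem_adjoin_simple_self k t)) u
  -- the finitely many coefficient vectors
  let ι := {b : H → Fin p // ∃ u, ((b u : ℕ)) ≠ 0}
  have hfin : Finite ι := inferInstance
  by_contra hcon
  push Not at hcon
  -- the bad subspaces cover
  have hcover : ⋃ b : ι, ((nbxW (k := k) ρ t (fun u => ((b.1 u : Fin p) : ℕ)) :
      Submodule k (nbxV (k := k) t)) : Set (nbxV (k := k) t)) = Set.univ := by
    rw [Set.eq_univ_iff_forall]
    rintro ⟨x, hx⟩
    obtain ⟨a, ⟨u, hu⟩, c, hc⟩ := hcon x hx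
    rw [Set.mem_iUnion]
    refine ⟨⟨fun u => ⟨a u % p, Nat.mod_lt _ hp.pos⟩, u, ?_⟩, c, ?_⟩
    · intro h0
      exact hu (Nat.dvd_of_mod_eq_zero h0)
    · rw [← hc]
      refine Finset.sum_congr rfl fun v _ => ?_
      have : (((a v % p : ℕ) : ℕ) : L) = (a v : L) := (CharP.cast_eq_mod L p (a v)).symm
      simp only [this]
  obtain ⟨b, hb⟩ := Subspace.exists_eq_top_of_iUnion_eq_univ hcover
  obtain ⟨u₀, hu₀⟩ := b.2
  -- the operator is not zero
  have hA : ∃ y : L, ∑ u : H, (((b.1 u : Fin p) : ℕ) : L) * ρ u y ≠ 0 := by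
    by_contra hall
    push Not at hall
    have hinj : Function.Injective (fun u : H => ((ρ u : L ≃ₐ[k] L) : L →* L)) := by
      intro u v huv
      apply hcov.inj
      ext x
      exact DFunLike.congr_fun huv x
    have hli := (linearIndependent_monoidHom L L).comp _ hinj
    rw [Fintype.linearIndependent_iff] at hli
    have h0 := hli (fun u => (((b.1 u : Fin p) : ℕ) : L)) (by
      funext y
      simpa using hall y) u₀
    rw [CharP.cast_eq_zero_iff L p] at h0
    have hlt : ((b.1 u₀ : Fin p) : ℕ) < p := (b.1 u₀).2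
    exact hu₀ (Nat.eq_zero_of_dvd_of_lt h0 hlt)
  obtain ⟨y, hy⟩ := hA
  obtain ⟨q, hq0, hq⟩ := hFRC k L H ρ t y hcov
  have hqt : Polynomial.aeval t q ≠ 0 := fun h => hq0 ((transcendental_iff.1 htr) q h)
  have hfixq : ∀ u : H, ρ u (Polynomial.aeval t q) = Polynomial.aeval t q := by
    intro u
    rw [← Polynomial.aeval_algHom_apply, hfixt]
  have hop : ∀ z : L, (∀ u : H, ρ u z = z) → ∀ w : L,
      ∑ u : H, (((b.1 u : Fin p) : ℕ) : L) * ρ u (z * w) =
        z * ∑ u : H, (((b.1 u : Fin p) : ℕ) : L) * ρ u w := by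
    intro z hz w
    rw [Finset.mul_sum]
    refine Finset.sum_congr rfl fun u _ => ?_
    rw [map_mul, hz u]; ring
  have h1 : (⟨Polynomial.aeval t q * y, hq⟩ : nbxV (k := k) t) ∈
      nbxW (k := k) ρ t (fun u => ((b.1 u : Fin p) : ℕ)) := by rw [hb]; trivial
  have h2 : (⟨t * (Polynomial.aeval t q * y), nbx_mul_t hq⟩ : nbxV (k := k) t) ∈
      nbxW (k := k) ρ t (fun u => ((b.1 u : Fin p) : ℕ)) := by rw [hb]; trivial
  obtain ⟨c1, hc1⟩ := h1
  obtain ⟨c2, hc2⟩ := h2
  simp only at hc1 hc2
  rw [hop _ hfixt, hc1] at hc2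
  rw [hop _ hfixq] at hc1
  have hc10 : c1 ≠ 0 := by
    intro h0
    rw [h0, map_zero] at hc1
    exact (mul_ne_zero hqt hy) hc1
  have hc10' : algebraMap k L c1 ≠ 0 := by
    rw [Ne, map_eq_zero]; exact hc10
  have ht : t = algebraMap k L (c2 / c1) := by
    rw [map_div₀, ← hc2, mul_div_assoc, div_self hc10', mul_one]
  exact htr (ht ▸ isAlgebraic_algebraMap _)

end Pool.CND
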