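import Pool.Agent.H37.CNR.Stmts
import Pool.Agent.H55.NEU.Psl2

/-!
# Row WRS of the board cnr
-/

set_option autoImplicit false

namespace Pool.CND

open Finset Matrix

theorem wrs_ram0 {k L G : Type} [Field k] [Field L] [Algebra k L] [Group G]
    (P : Place k L) (ρ : G →* (L ≃ₐ[k] L)) (g : G) : g ∈ ram P ρ 0 ↔ Fixes P (ρ g) := by
  constructor
  · exact fun h => h.1
  · intro h
    refine ⟨h, fun u _ h1 => ?_⟩
    by_cases e : ρ g u = u
    · exact Or.inl e
    · right
      have h2 : P.Ge u 1 := by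
        have h3 := P.ge_ord u
        rw [h1] at h3
        exact h3
      have h4 := (P.ge_iff (sub_ne_zero.2 e) 1).1 (P.ge_sub (h.ge h2) h2)
      rw [Nat.cast_zero, zero_add]
      exact h4

theorem wrs_det {F : Type} [Field F] (g : SL F) (h : g.1 1 0 = 0) :
    g.1 0 0 * g.1 1 1 = 1 := by
  have h1 : g.1.det = 1 := g.2
  rw [Matrix.det_fin_two, h, mul_zero, sub_zero] at h1
  exact h1

/-- the upper triangular matrices -/
def wrsB (F : Type) [Field F] : Fˣ × F ≃ {g : SL F | g.1 1 0 = 0} where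
  toFun x := ⟨⟨!![(x.1 : F), x.2; 0, ((x.1⁻¹ : Fˣ) : F)], by
    rw [Matrix.det_fin_two_of, Units.mul_inv, mul_zero, sub_zero]⟩, rfl⟩
  invFun g := (⟨g.1.1 0 0, g.1.1 1 1, wrs_det g.1 g.2, by
    rw [mul_comm]; exact wrs_det g.1 g.2⟩, g.1.1 0 1)
  left_inv x := by
    refine Prod.ext (Units.ext rfl) rfl
  right_inv := by
    rintro ⟨g, h2⟩
    refine Subtype.ext (Subtype.ext ?_)
    ext i j
    fin_cases i <;> fin_cases j
    · rfl
    · rfl
    · exact h2.symm
    · rfl

theorem wrs_emb (p : ℕ) (k F : Type) [Field k] [IsAlgClosed k] [Field F] [Finite F]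
    (hp : p.Prime) (hcp : CharP k p) (hcF : CharP F p) : Nonempty (F →+* k) := by
  have : Fact p.Prime := ⟨hp⟩
  let _ : Algebra (ZMod p) F := ZMod.algebra F p
  let _ : Algebra (ZMod p) k := ZMod.algebra k p
  exact ⟨(IsAlgClosed.lift (R := ZMod p) (S := F) (M := k)).toRingHom⟩

theorem wrs_thm (hWRE : S_WRE) (hWLD : S_WLD) (hNCL : S_NCL) (hSLW : S_SLW) (hSLE : S_SLE)
    (hSLI : S_SLI) (hSLF : S_SLF) (hSUB : S_SUB) : S_WRS := by
  intro p k F _ _ _ f q hp hp2 hcp hf hq hF hcF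
  have hq2 : 2 ≤ q := by
    rw [hq]
    exact le_trans hp.two_le (Nat.le_self_pow (by omega) p)
  have hfF : Finite F := Nat.finite_of_card_ne_zero (by omega)
  have hfS : Finite (SL F) := inferInstance
  have hg2 : Nat.gcd 2 p = 1 := by
    rw [← Nat.coprime_iff_gcd_eq_one, Nat.coprime_primes Nat.prime_two hp]
    exact fun h => hp2 h.symm
  obtain ⟨hlow, hup⟩ := hWRE p k (SL F) hp hcp
  rw [hg2, one_mul] at hlow
  have hcardSL : Nat.card (SL F) = q * (q ^ 2 - 1) := by
    have h := Pool.Agent.H55.NEU.card_SL2 (F := F)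
    rw [hF] at h
    exact h
  apply Nat.dvd_antisymm
  · -- upper bound
    refine (hup (q * (q - 1)) (Nat.mul_pos (by omega) (by omega)) ?_).2
    rintro e ⟨L, _, _, ρ, t, hcov, P, hPt, rfl⟩
    obtain ⟨W, I, hW, hI, hWI, ⟨r, hr⟩, m, hpm, hcI⟩ := hWLD p k L (SL F) P ρ hp hcp hcov.inj
    obtain ⟨W', I', hW', hI', -, hnorm⟩ := hSUB k L (SL F) P ρ
    have e1 : W' = W := SetLike.coe_injective (hW'.trans hW.symm)
    have e2 : I' = I := SetLike.coe_injective (hI'.trans hI.symm)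
    rw [e1, e2] at hnorm
    have hWb : W ≠ ⊥ := by
      intro h0
      have h1 : (⊥ : Subgroup (SL F)) = ⊤ := by
        refine hNCL p k L (SL F) ρ t P ⊥ hp hcp hcov hPt inferInstance ?_
        rw [← hW, h0]
      have h2 : Nat.card (SL F) = 1 := by
        rw [← Subgroup.card_top, ← h1, Subgroup.card_bot]
      rw [hcardSL] at h2
      have h3 : 4 ≤ q ^ 2 := by nlinarith
      have h4 : 3 ≤ q ^ 2 - 1 := by omega
      have h5 : 2 * 3 ≤ q * (q ^ 2 - 1) := Nat.mul_le_mul hq2 h4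
      omega
    obtain ⟨-, hmq, -⟩ := hSLW p F f q hp hf hq hF W I m hWI hWb ⟨r, hr⟩ hnorm hpm hcI
    have hrq : p ^ r ∣ q := by
      have h1 : p ^ r ∣ q * (q ^ 2 - 1) := by
        rw [← hcardSL, ← hr]
        exact Subgroup.card_subgroup_dvd_card W
      have h2 : Nat.Coprime (p ^ r) (q ^ 2 - 1) := by
        apply Nat.Coprime.pow_left
        rw [hp.coprime_iff_not_dvd]
        intro h3
        have h4 : p ∣ q ^ 2 := by
          rw [hq]
          exact dvd_pow (dvd_pow_self p (by omega)) (by norm_num)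
        have h5 : 1 ≤ q ^ 2 := Nat.one_le_pow _ _ (by omega)
        have h6 : p ∣ 1 := by
          have := Nat.dvd_sub h4 h3
          rwa [Nat.sub_sub_self h5] at this
        exact hp.one_lt.ne' (Nat.dvd_one.1 h6)
      exact h2.dvd_of_dvd_mul_right h1
    have h7 : (ram P ρ 0).ncard = m * p ^ r := by
      rw [← hI, ← hr, ← hcI]
      rfl
    rw [h7, mul_comm]
    exact Nat.mul_dvd_mul hrq hmq
  · -- lower bound
    apply hlow
    obtain ⟨φ⟩ := wrs_emb p k F hp hcp hcF
    let _ : Algebra F k := φ.toAlgebra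
    obtain ⟨L, _, _, s, x, y, ρ, P, hSl⟩ := hSLE p k F f q 1 hp hcp hf hq hF le_rfl
      (Nat.coprime_one_left _)
    have hcov := hSLI p k F L f q 1 s x y ρ P hp hcp hf hq hF le_rfl (Nat.coprime_one_left _) hSl
    have hfx := hSLF p k F L f q 1 s x y ρ P hp hcp hf hq hF le_rfl (Nat.coprime_one_left _) hSl
    refine ⟨L, _, _, ρ, s, hcov, P, ?_, ?_⟩
    · rw [hSl.ord_s, neg_lt_zero]
      exact_mod_cast Nat.mul_pos (by omega : 0 < q) (by omega : 0 < q - 1)
    · have h0 : ram P ρ 0 = {g : SL F | g.1 1 0 = 0} := by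
        ext g
        rw [wrs_ram0, hfx]
        rfl
      rw [h0, ← Nat.card_coe_set_eq, ← Nat.card_congr (wrsB F), Nat.card_prod, Nat.card_units, hF,
        mul_comm]

end Pool.CND
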